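import Pool.Agent.Run7.h852.CO.Plane

/-!
# Near-eclipses recur in a time bounded by the energy

Let `A` be twice the signed area of the triangle of the three bodies, `J` the angular momentum about
the centre of mass and `S = ∑_{i<j} (m_i + m_j) / r_ij ^ 3`. Along every solution of the planar
three-body problem, as long as `A ≠ 0`,

`(log |A|)'' + ((log |A|)') ^ 2 / 2 ≤ - S + M J ^ 2 / (2 m_1 m_2 m_3 A ^ 2)`.

For energy at most `-h < 0` one has `S ≥ 2 κ`, `κ = μ h ^ 3 / (m_1 m_2 + m_1 m_3 + m_2 m_3) ^ 3`, where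
`μ` is a lower bound of the masses: the shortest side of the triangle is bounded, however far the third
body is. So `|A| ^ (1 / 2)` satisfies Sturm's comparison inequality while
`2 m_1 m_2 m_3 κ A ^ 2 > M J ^ 2`.
-/

set_option autoImplicit false

namespace Pool.Agent.Results.MP_a64b97_mp.NearEclipses

/-- The plane. -/
abbrev Plane : Type := EuclideanSpace ℝ (Fin 2)

/-- `a × b` in the plane. -/
def cross (a b : Plane) : ℝ := a 0 * b 1 - a 1 * b 0

/-- Twice the signed area of the triangle of the three bodies; zero if and only if they are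
collinear. -/
def area2 (q : Fin 3 → Plane) : ℝ := cross (q 1 - q 0) (q 2 - q 0)

/-- A collision-free solution of the planar three-body problem at the times of `I`, with the positions
`x` and the velocities `v`. -/
structure IsSolution (m : Fin 3 → ℝ) (I : Set ℝ) (x v : ℝ → Fin 3 → Plane) : Prop where
  free : ∀ t ∈ I, ∀ i j, i ≠ j → x t i ≠ x t j
  velocity : ∀ t ∈ I, ∀ i, HasDerivAt (fun s => x s i) (v t i) t
  newton : ∀ t ∈ I, ∀ i, HasDerivAt (fun s => v s i)
    (∑ j, (m j / ‖x t j - x t i‖ ^ 3) • (x t j - x t i)) t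

/-- The centre of mass (or its velocity). -/
noncomputable def centre (m : Fin 3 → ℝ) (q : Fin 3 → Plane) : Plane :=
  (∑ i, m i)⁻¹ • ∑ i, m i • q i

/-- The angular momentum about the centre of mass. -/
noncomputable def angularMomentum (m : Fin 3 → ℝ) (q w : Fin 3 → Plane) : ℝ :=
  ∑ i, m i * cross (q i - centre m q) (w i - centre m w)

/-- The energy `∑ m_i |w_i| ^ 2 / 2 - ∑_{i<j} m_i m_j / |q_i - q_j|` (the double sum counts each pair
twice; its diagonal terms are zero). -/
noncomputable def energy (m : Fin 3 → ℝ) (q w : Fin 3 → Plane) : ℝ :=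
  ∑ i, m i * ‖w i‖ ^ 2 / 2 - ∑ i, ∑ j, m i * m j / ‖q i - q j‖ / 2

/-- Let the masses be at least `μ > 0` and the energy at most `-h < 0`; put
`κ = μ h ^ 3 / (m_0 m_1 + m_0 m_2 + m_1 m_2) ^ 3`. Every time interval `[a, b]` of length at least
`π √(2 / κ)` contains an instant `t` at which `2 m_0 m_1 m_2 κ A ^ 2 ≤ M J ^ 2`, `A` = twice the
area, `M` = total mass, `J` = angular momentum about the centre of mass. -/
theorem result (m : Fin 3 → ℝ) (μ : ℝ) (hμ : 0 < μ) (hm : ∀ i, μ ≤ m i) (h : ℝ) (hh : 0 < h)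
    (I : Set ℝ) (x v : ℝ → Fin 3 → Plane) (hs : IsSolution m I x v)
    (hE : ∀ t ∈ I, energy m (x t) (v t) ≤ -h) (κ : ℝ)
    (hκ : κ = μ * h ^ 3 / (m 0 * m 1 + m 0 * m 2 + m 1 * m 2) ^ 3) (a b : ℝ)
    (hI : Set.Icc a b ⊆ I) (hab : Real.pi * √(2 / κ) ≤ b - a) :
    ∃ t ∈ Set.Icc a b, 2 * (m 0 * m 1 * m 2) * κ * area2 (x t) ^ 2 ≤
      (∑ i, m i) * angularMomentum m (x t) (v t) ^ 2 := by
  have hm0 : ∀ i, 0 < m i := fun i => lt_of_lt_of_le hμ (hm i)
  have hκ0 : 0 < κ := by
    rw [hκ]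
    have := hm0 0; have := hm0 1; have := hm0 2; positivity
  have hab' : a ≤ b := by
    have : 0 ≤ Real.pi * √(2 / κ) := by positivity
    linarith
  by_contra hcon
  push Not at hcon
  have h1 := Run7.h852.CO.Pl.main (m := m) (I := I) (x := x) (v := v) hm0
    ⟨hs.free, hs.velocity, hs.newton⟩ κ hκ0 a b hab' hI ?_
  · linarith
  intro t ht
  have h2 := Run7.h852.CO.Pl.S_energy hm0 hμ hm hh (x t) (v t) (hs.free t (hI ht)) (hE t (hI ht))
  rw [← hκ] at h2
  have h3 : (∑ i, m i) * Run7.h852.CO.Pl.ang m (x t) (v t) ^ 2 <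
      2 * (m 0 * m 1 * m 2) * κ * Run7.h852.CO.Pl.Ar (x t) ^ 2 := hcon t ht
  have hP : 0 < m 0 * m 1 * m 2 := by
    have := hm0 0; have := hm0 1; have := hm0 2; positivity
  have h4 : 2 * (m 0 * m 1 * m 2) * κ * Run7.h852.CO.Pl.Ar (x t) ^ 2 ≤
      2 * (m 0 * m 1 * m 2) * (Run7.h852.CO.Pl.S m (x t) - κ) *
        Run7.h852.CO.Pl.Ar (x t) ^ 2 := by
    refine mul_le_mul_of_nonneg_right (mul_le_mul_of_nonneg_left ?_ (by positivity)) (sq_nonneg _)
    linarith
  linarith

end Pool.Agent.Results.MP_a64b97_mp.NearEclipses
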